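import Mathlib
import Pool.Agent.H28.GS6

namespace Pool.Agent.Results.MP_27ff1b_co.LinesGS

/-- A line in `ℝ^d`: the set of points `p + t • v`, `t` real, for a point `p` and `v ≠ 0`. -/
def IsLine {d : ℕ} (L : Set (EuclideanSpace ℝ (Fin d))) : Prop :=
  ∃ p v : EuclideanSpace ℝ (Fin d), v ≠ 0 ∧ L = {x | ∃ t : ℝ, x = p + t • v}

/-- `G` is the intersection graph of a family of distinct lines in `ℝ^d`, one line per vertex. -/
def IsLineGraphIn (d : ℕ) {n : ℕ} (G : SimpleGraph (Fin n)) : Prop :=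
  ∃ S : Fin n → Set (EuclideanSpace ℝ (Fin d)), Function.Injective S ∧ (∀ i, IsLine (S i)) ∧
    ∀ i j, G.Adj i j ↔ i ≠ j ∧ (S i ∩ S j).Nonempty

open Pool.Agent.H28.GS in
theorem result : ∀ d : ℕ, 1 ≤ d → ∀ (m : ℕ) (F : SimpleGraph (Fin m)), F.IsAcyclic →
    ∃ f : ℕ → ℕ, ∀ (n : ℕ) (G : SimpleGraph (Fin n)), IsLineGraphIn d G → IsEmpty (F ↪g G) →
      G.chromaticNumber ≤ (f G.cliqueNum : ℕ∞) := by
  intro d _ m F hF
  have h3 : ∀ i j : Fin d ⊕ Fin 3, ∃ k, k ≠ i ∧ k ≠ j := by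
    intro i j
    obtain ⟨k, -, hk⟩ := Finset.exists_mem_notMem_of_card_lt_card
      (s := ({i, j} : Finset (Fin d ⊕ Fin 3))) (t := Finset.univ)
      (lt_of_le_of_lt Finset.card_le_two (by simp))
    exact ⟨k, by simpa using hk⟩
  choose f hf using fun k => gs_lines h3 F hF (k + 1)
  refine ⟨f, fun n G ⟨S, hS, hL, hG⟩ hfree => ?_⟩
  choose p v hv hpv using hL
  let em : EuclideanSpace ℝ (Fin d) →ₗ[ℝ] (Fin d ⊕ Fin 3 → ℝ) :=
    { toFun := fun x => Sum.elim (fun i => x i) 0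
      map_add' := fun x y => by ext (i | i) <;> simp
      map_smul' := fun r x => by ext (i | i) <;> simp }
  have hem : Function.Injective em := fun x y e => by
    ext i; exact congrFun e (.inl i)
  let T : Fin n → Ln (Fin d ⊕ Fin 3) := fun i =>
    ⟨(em (p i), em (v i)), fun e => hv i (hem (e.trans (map_zero em).symm))⟩
  have hq : ∀ i j, prl (T i) (T j) ↔ ∃ t : ℝ, v i = t • v j := fun i j => by
    rw [prl_iff]
    exact exists_congr fun t => by simp only [T, ← map_smul, hem.eq_iff]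
  have hm : ∀ i j, (S i ∩ S j).Nonempty ↔
      ∃ s t : ℝ, (T i).1.1 + s • (T i).1.2 = (T j).1.1 + t • (T j).1.2 := fun i j => by
    simp only [T, ← map_smul, ← map_add, hem.eq_iff]
    rw [hpv i, hpv j]
    exact ⟨fun ⟨x, ⟨s, h1⟩, ⟨t, h2⟩⟩ => ⟨s, t, h1.symm.trans h2⟩,
      fun ⟨s, t, h⟩ => ⟨_, ⟨s, rfl⟩, ⟨t, h⟩⟩⟩
  refine (hf G.cliqueNum n T G (fun i j => ?_) (not_nonempty_iff.2 hfree) ?_).chromaticNumber_le
  · rw [hG]
    constructor
    · rintro ⟨hij, h⟩
      have hn : ¬ prl (T i) (T j) := by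
        intro hp
        obtain ⟨a, ha⟩ := (hq _ _).1 hp
        obtain ⟨x, h1, h2⟩ := h
        rw [hpv i] at h1
        rw [hpv j] at h2
        obtain ⟨s, h1⟩ := h1
        obtain ⟨t, h2⟩ := h2
        have a0 : a ≠ 0 := by rintro rfl; exact hv i (by simpa using ha)
        have e : p i = p j + (t - s * a) • v j := by
          rw [sub_smul, mul_smul, ← ha, ← add_sub_assoc, ← h2, h1]; simp
        refine hij (hS ?_)
        rw [hpv i, hpv j]
        ext y
        constructor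
        · rintro ⟨r, rfl⟩
          exact ⟨t - s * a + r * a, by rw [e, ha]; module⟩
        · rintro ⟨r, rfl⟩
          refine ⟨(r - (t - s * a)) / a, ?_⟩
          rw [e, ha, smul_smul, div_mul_cancel₀ _ a0]; module
      exact ⟨(meet_iff hn).2 ((hm _ _).1 h), hn⟩
    · rintro ⟨h1, h2⟩
      refine ⟨?_, (hm _ _).2 ((meet_iff h2).1 h1)⟩
      rintro rfl
      exact h2 fun _ _ => mul_comm _ _
  · intro s hs
    have := hs.isClique.card_le_cliqueNum
    rw [hs.card_eq] at this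
    omega

end Pool.Agent.Results.MP_27ff1b_co.LinesGS
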